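import Mathlib

/-!
# Superadditive interval functions are additive on the small boxes of almost every point

`sup_ae`: `F w o` (for `w ≤ o ≤ w + lam`) nonnegative with `F w v + F v o ≤ F w o`. Then at almost
every `g` the defect `F w o - F w v - F v o` is `o(r)` for all `g - r ≤ w ≤ v ≤ o ≤ g + r`.
(Equivalently: a finite measure on `{w ≤ o}` which does not charge the diagonal has density `0` at
almost every point of the diagonal.)
-/

set_option autoImplicit false

namespace Pool.LOV23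

open MeasureTheory Set Filter Topology

/-- Where the derivative of a monotone function is large. -/
theorem volume_deriv_ge {f : ℝ → ℝ} {a b c : ℝ} (hab : a ≤ b) (hf : MonotoneOn f (Icc a b))
    (hc : 0 < c) :
    volume {x : ℝ | x ∈ Ioo a b ∧ c ≤ deriv f x} ≤ ENNReal.ofReal ((f b - f a) / c) := by
  have hf' : MonotoneOn f (uIcc a b) := by rwa [uIcc_of_le hab]
  have hI := hf'.intervalIntegral_deriv_mem_uIcc
  have hint := hf'.intervalIntegrable_deriv
  have hfab : f a ≤ f b := hf (left_mem_Icc.2 hab) (right_mem_Icc.2 hab) hab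
  rw [uIcc_of_le (by linarith), mem_Icc] at hI
  rw [intervalIntegral.integral_of_le hab, integral_Ioc_eq_integral_Ioo] at hI
  have hint' : Integrable (deriv f) (volume.restrict (Ioo a b)) :=
    ((intervalIntegrable_iff_integrableOn_Ioo_of_le hab).1 hint)
  have hnn : 0 ≤ᵐ[volume.restrict (Ioo a b)] deriv f := by
    rw [EventuallyLE, ae_restrict_iff' measurableSet_Ioo]
    refine Eventually.of_forall fun x hx => ?_
    rw [← derivWithin_of_mem_nhds (Icc_mem_nhds hx.1 hx.2)]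
    exact hf.derivWithin_nonneg
  have h1 := mul_meas_ge_le_integral_of_nonneg hnn hint' c
  have hms : MeasurableSet {x : ℝ | c ≤ deriv f x} :=
    measurableSet_le measurable_const (measurable_deriv f)
  have h3 : (volume.restrict (Ioo a b)) {x | c ≤ deriv f x} =
      volume {x : ℝ | x ∈ Ioo a b ∧ c ≤ deriv f x} := by
    rw [Measure.restrict_apply hms, inter_comm]
    rfl
  have hfin : volume {x : ℝ | x ∈ Ioo a b ∧ c ≤ deriv f x} ≠ ⊤ :=
    ne_top_of_le_ne_top measure_Ioo_lt_top.ne (measure_mono fun x hx => hx.1)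
  rw [measureReal_def, h3] at h1
  rw [← ENNReal.ofReal_toReal hfin]
  refine ENNReal.ofReal_le_ofReal ?_
  rw [le_div_iff₀ hc]
  linarith [hI.2]

/-- At a point where the derivative of a monotone function is small, so are the increments. -/
theorem incr_of_deriv {f : ℝ → ℝ} {a b c x : ℝ} (hx : x ∈ Ioo a b) (hd : DifferentiableAt ℝ f x)
    (hc : 0 < c) (hdc : deriv f x < c) :
    ∃ r₀ : ℝ, 0 < r₀ ∧ ∀ r : ℝ, 0 < r → r < r₀ → a ≤ x - r ∧ x + r ≤ b ∧
      f (x + r) - f (x - r) ≤ 3 * c * r := by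
  have h1 := hd.hasDerivAt
  rw [hasDerivAt_iff_isLittleO_nhds_zero] at h1
  have h2 := h1.def (half_pos hc)
  obtain ⟨s, hs, hs'⟩ := Metric.eventually_nhds_iff.1 h2
  refine ⟨min s (min (x - a) (b - x)), lt_min hs (lt_min (by linarith [hx.1]) (by linarith [hx.2])),
    fun r hr hr' => ?_⟩
  have hr1 : r < s := hr'.trans_le (min_le_left _ _)
  have hr2 : r < x - a := hr'.trans_le ((min_le_right _ _).trans (min_le_left _ _))
  have hr3 : r < b - x := hr'.trans_le ((min_le_right _ _).trans (min_le_right _ _))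
  have h3 := hs' (y := r) (by rw [dist_zero_right, Real.norm_eq_abs, abs_of_pos hr]; exact hr1)
  have h4 := hs' (y := -r) (by
    rw [dist_zero_right, Real.norm_eq_abs, abs_neg, abs_of_pos hr]; exact hr1)
  rw [Real.norm_eq_abs, Real.norm_eq_abs, smul_eq_mul, abs_of_pos hr, abs_le] at h3
  rw [Real.norm_eq_abs, Real.norm_eq_abs, smul_eq_mul, abs_neg, abs_of_pos hr, abs_le,
    ← sub_eq_add_neg] at h4
  refine ⟨by linarith, by linarith, ?_⟩
  have h5 : deriv f x * r ≤ c * r := mul_le_mul_of_nonneg_right hdc.le hr.le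
  nlinarith [h3.2, h4.1]

section Defect

variable {F : ℝ → ℝ → ℝ} {A B : ℝ}

/-- The sums of `F` over the partitions of `[a, b]`. -/
def parts (F : ℝ → ℝ → ℝ) (a b : ℝ) : Set ℝ :=
  {s | ∃ (u : ℕ → ℝ) (n : ℕ), Monotone u ∧ u 0 = a ∧ u n = b ∧
    s = ∑ i ∈ Finset.range n, F (u i) (u (i + 1))}

theorem parts_one (F : ℝ → ℝ → ℝ) {a b : ℝ} (hab : a ≤ b) : F a b ∈ parts F a b := by
  refine ⟨fun i => if i = 0 then a else b, 1, ?_, rfl, rfl, by simp⟩
  intro i j hij
  dsimp only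
  split_ifs with h1 h2
  · exact le_rfl
  · exact hab
  · omega
  · exact le_rfl

theorem parts_nonneg (h0 : ∀ w o, A ≤ w → w ≤ o → o ≤ B → 0 ≤ F w o) {a b : ℝ} (ha : A ≤ a)
    (hb : b ≤ B) {s : ℝ} (hs : s ∈ parts F a b) : 0 ≤ s := by
  obtain ⟨u, n, hu, hu0, hun, rfl⟩ := hs
  refine Finset.sum_nonneg fun i hi => ?_
  rw [Finset.mem_range] at hi
  refine h0 _ _ ?_ (hu (Nat.le_succ i)) ?_
  · rw [← hu0] at ha
    exact ha.trans (hu (Nat.zero_le i))
  · exact (hu (by omega)).trans (hun.le.trans hb)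

theorem parts_add (F : ℝ → ℝ → ℝ) {a b c s t : ℝ} (hs : s ∈ parts F a b) (ht : t ∈ parts F b c) :
    s + t ∈ parts F a c := by
  obtain ⟨u, n, hu, hu0, hun, rfl⟩ := hs
  obtain ⟨v, m, hv, hv0, hvm, rfl⟩ := ht
  refine ⟨fun i => if i ≤ n then u i else v (i - n), n + m, ?_, by simp [hu0], ?_, ?_⟩
  · intro i j hij
    dsimp only
    split_ifs with h1 h2 h3
    · exact hu hij
    · calc u i ≤ u n := hu h1
        _ = v 0 := by rw [hun, hv0]
        _ ≤ v (j - n) := hv (Nat.zero_le _)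
    · omega
    · exact hv (by omega)
  · dsimp only
    split_ifs with h1
    · have : m = 0 := by omega
      subst this
      rw [← hvm, hv0, Nat.add_zero, hun]
    · rw [Nat.add_sub_cancel_left, hvm]
  · rw [Finset.sum_range_add]
    congr 1
    · refine Finset.sum_congr rfl fun i hi => ?_
      rw [Finset.mem_range] at hi
      dsimp only
      rw [if_pos hi.le, if_pos (by omega)]
    · refine Finset.sum_congr rfl fun i hi => ?_
      dsimp only
      rw [if_neg (show ¬ n + i + 1 ≤ n by omega)]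
      have h2 : n + i + 1 - n = i + 1 := by omega
      rw [h2]
      by_cases h3 : i = 0
      · subst h3
        rw [if_pos (by omega), Nat.add_zero n, hun, hv0]
      · rw [if_neg (by omega)]
        congr 2
        omega

/-- The additive minorant. -/
noncomputable def Phi (F : ℝ → ℝ → ℝ) (a b : ℝ) : ℝ := sInf (parts F a b)

theorem Phi_le (h0 : ∀ w o, A ≤ w → w ≤ o → o ≤ B → 0 ≤ F w o) {a b : ℝ} (ha : A ≤ a)
    (hb : b ≤ B) {s : ℝ} (hs : s ∈ parts F a b) : Phi F a b ≤ s :=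
  csInf_le ⟨0, fun _ ht => parts_nonneg h0 ha hb ht⟩ hs

theorem exists_lt_Phi {a b : ℝ} (hab : a ≤ b) {e : ℝ} (he : 0 < e) :
    ∃ s ∈ parts F a b, s < Phi F a b + e :=
  exists_lt_of_csInf_lt ⟨_, parts_one F hab⟩ (lt_add_of_pos_right _ he)

theorem Phi_add (h0 : ∀ w o, A ≤ w → w ≤ o → o ≤ B → 0 ≤ F w o) {a b c : ℝ} (ha : A ≤ a)
    (hab : a ≤ b) (hbc : b ≤ c) (hc : c ≤ B) : Phi F a c ≤ Phi F a b + Phi F b c := by
  refine le_of_forall_pos_le_add fun e he => ?_
  obtain ⟨s, hs, hs'⟩ := exists_lt_Phi (F := F) hab (half_pos he)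
  obtain ⟨t, ht, ht'⟩ := exists_lt_Phi (F := F) hbc (half_pos he)
  have := Phi_le h0 ha hc (parts_add F hs ht)
  linarith

/-- The defect over the additive minorant. -/
noncomputable def Df (F : ℝ → ℝ → ℝ) (a b : ℝ) : ℝ := F a b - Phi F a b

theorem Df_nonneg (h0 : ∀ w o, A ≤ w → w ≤ o → o ≤ B → 0 ≤ F w o) {a b : ℝ} (ha : A ≤ a)
    (hab : a ≤ b) (hb : b ≤ B) : 0 ≤ Df F a b :=
  sub_nonneg.2 (Phi_le h0 ha hb (parts_one F hab))

theorem Df_add (h0 : ∀ w o, A ≤ w → w ≤ o → o ≤ B → 0 ≤ F w o)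
    (h2 : ∀ w v o, A ≤ w → w ≤ v → v ≤ o → o ≤ B → F w v + F v o ≤ F w o) {a b c : ℝ} (ha : A ≤ a)
    (hab : a ≤ b) (hbc : b ≤ c) (hc : c ≤ B) : Df F a b + Df F b c ≤ Df F a c := by
  have h3 := h2 a b c ha hab hbc hc
  have h4 := Phi_add h0 ha hab hbc hc
  unfold Df
  linarith

theorem defect_le (h0 : ∀ w o, A ≤ w → w ≤ o → o ≤ B → 0 ≤ F w o) {a b c : ℝ} (ha : A ≤ a)
    (hab : a ≤ b) (hbc : b ≤ c) (hc : c ≤ B) : F a c - F a b - F b c ≤ Df F a c := by
  have h3 := Phi_add h0 ha hab hbc hc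
  have h4 := Phi_le h0 ha (hbc.trans hc) (parts_one F hab)
  have h5 := Phi_le h0 (ha.trans hab) hc (parts_one F hbc)
  unfold Df
  linarith

theorem sum_Phi (h0 : ∀ w o, A ≤ w → w ≤ o → o ≤ B → 0 ≤ F w o) {u : ℕ → ℝ} (hu : Monotone u) :
    ∀ n : ℕ, A ≤ u 0 → u n ≤ B → 0 < n →
      Phi F (u 0) (u n) ≤ ∑ i ∈ Finset.range n, Phi F (u i) (u (i + 1)) := by
  intro n hA
  induction n with
  | zero => intro _ h; exact absurd h (lt_irrefl 0)
  | succ n ih =>
    intro hB _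
    rcases Nat.eq_zero_or_pos n with h | h
    · subst h
      simp
    · rw [Finset.sum_range_succ]
      have h3 := ih ((hu (Nat.le_succ n)).trans hB) h
      have h4 := Phi_add h0 hA (hu (Nat.zero_le n)) (hu (Nat.le_succ n)) hB
      linarith

/-- Partitions with a small total defect. -/
theorem exists_small (h0 : ∀ w o, A ≤ w → w ≤ o → o ≤ B → 0 ≤ F w o) (hAB : A < B) {e : ℝ}
    (he : 0 < e) : ∃ (u : ℕ → ℝ) (n : ℕ), Monotone u ∧ u 0 = A ∧ u n = B ∧
      ∑ i ∈ Finset.range n, Df F (u i) (u (i + 1)) ≤ e := by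
  obtain ⟨s, ⟨u, n, hu, hu0, hun, rfl⟩, hs⟩ := exists_lt_Phi (F := F) hAB.le he
  refine ⟨u, n, hu, hu0, hun, ?_⟩
  have hn : 0 < n := by
    rcases Nat.eq_zero_or_pos n with h | h
    · subst h
      rw [hu0] at hun
      exact absurd hun hAB.ne
    · exact h
  have h3 := sum_Phi h0 hu n hu0.ge hun.le hn
  rw [hu0, hun] at h3
  simp only [Df, Finset.sum_sub_distrib]
  linarith

/-- The points with a large defect. -/
theorem volume_bad (h0 : ∀ w o, A ≤ w → w ≤ o → o ≤ B → 0 ≤ F w o)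
    (h2 : ∀ w v o, A ≤ w → w ≤ v → v ≤ o → o ≤ B → F w v + F v o ≤ F w o) (hAB : A < B) {c : ℝ}
    (hc : 0 < c) :
    ∀ᵐ g : ℝ, g ∈ Ioo A B → ∃ r₀ : ℝ, 0 < r₀ ∧ ∀ r : ℝ, 0 < r → r < r₀ → ∀ w o : ℝ,
      g - r ≤ w → w ≤ o → o ≤ g + r → Df F w o ≤ 3 * c * r := by
  rw [ae_iff]
  set S : Set ℝ := {g : ℝ | ¬ (g ∈ Ioo A B → ∃ r₀ : ℝ, 0 < r₀ ∧ ∀ r : ℝ, 0 < r → r < r₀ →
    ∀ w o : ℝ, g - r ≤ w → w ≤ o → o ≤ g + r → Df F w o ≤ 3 * c * r)} with hS
  refine le_antisymm (ENNReal.le_of_forall_pos_le_add fun e he _ => ?_) bot_le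
  rw [zero_add]
  obtain ⟨u, n, hu, hu0, hun, hsum⟩ := exists_small h0 hAB (e := e * c)
    (mul_pos (NNReal.coe_pos.2 he) hc)
  have hA : ∀ i, A ≤ u i := fun i => hu0 ▸ hu (Nat.zero_le i)
  have hB : ∀ i, i ≤ n → u i ≤ B := fun i hi => hun ▸ hu hi
  -- the monotone functions of the pieces
  have hmon : ∀ i < n, MonotoneOn (fun x => Df F (u i) x) (Icc (u i) (u (i + 1))) := by
    intro i hi x hx y hy hxy
    have h3 := Df_add h0 h2 (hA i) hx.1 hxy (hy.2.trans (hB _ hi))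
    have h4 := Df_nonneg h0 ((hA i).trans hx.1) hxy (hy.2.trans (hB _ hi))
    dsimp only
    linarith
  -- the bad set of a piece
  set T : ℕ → Set ℝ := fun i => {x : ℝ | x ∈ Ioo (u i) (u (i + 1)) ∧
    c ≤ deriv (fun x => Df F (u i) x) x} with hT
  have hdiff : ∀ᵐ x : ℝ, ∀ i : ℕ, i < n → x ∈ Ioo (u i) (u (i + 1)) →
      DifferentiableAt ℝ (fun x => Df F (u i) x) x := by
    rw [ae_all_iff]
    intro i
    by_cases hi : i < n
    · filter_upwards [(hmon i hi).ae_differentiableWithinAt_of_mem] with x hx _ hx'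
      exact (hx ⟨hx'.1.le, hx'.2.le⟩).differentiableAt (Icc_mem_nhds hx'.1 hx'.2)
    · exact Eventually.of_forall fun x h => absurd h hi
  have hpts : ∀ᵐ x : ℝ, x ∉ (⋃ i : ℕ, ({u i} : Set ℝ)) := by
    rw [ae_iff]
    simp only [not_not]
    exact (measure_iUnion_null fun i => by simp : volume (⋃ i : ℕ, ({u i} : Set ℝ)) = 0)
  set N : Set ℝ := {x : ℝ | ¬ ((∀ i : ℕ, i < n → x ∈ Ioo (u i) (u (i + 1)) →
      DifferentiableAt ℝ (fun x => Df F (u i) x) x) ∧ x ∉ (⋃ i : ℕ, ({u i} : Set ℝ)))} with hN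
  have hN0 : volume N = 0 := by
    rw [hN, ← ae_iff]
    exact hdiff.and hpts
  have hsub : S ⊆ N ∪ ⋃ i ∈ Finset.range n, T i := by
    intro x hx
    by_contra hcon
    rw [mem_union, not_or] at hcon
    obtain ⟨hx1, hx2⟩ := hcon
    rw [hN, mem_ofPred_eq, not_not] at hx1
    obtain ⟨hx1, hx3⟩ := hx1
    refine hx fun hxAB => ?_
    -- the piece of `x`
    have hex : ∃ i, x < u i := ⟨n, by rw [hun]; exact hxAB.2⟩
    classical
    have hne : Nat.find hex ≠ 0 := by
      intro h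
      have := Nat.find_spec hex
      rw [h, hu0] at this
      exact absurd hxAB.1 (not_lt.2 this.le)
    obtain ⟨i, hi⟩ := Nat.exists_eq_succ_of_ne_zero hne
    have hi1 : x < u (i + 1) := by
      have := Nat.find_spec hex
      rwa [hi] at this
    have hi2 : u i ≤ x := by
      have := Nat.find_min hex (m := i) (by omega)
      exact not_lt.1 this
    have hi3 : u i < x := by
      refine lt_of_le_of_ne hi2 fun h => hx3 ?_
      exact mem_iUnion.2 ⟨i, by rw [h]; rfl⟩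
    have hin : i < n := by
      have : Nat.find hex ≤ n := Nat.find_min' hex (by rw [hun]; exact hxAB.2)
      omega
    have hd := hx1 i hin ⟨hi3, hi1⟩
    have hdc : deriv (fun x => Df F (u i) x) x < c := by
      by_contra hcon
      refine hx2 (mem_biUnion (Finset.mem_coe.2 (Finset.mem_range.2 hin)) ?_)
      exact ⟨⟨hi3, hi1⟩, not_lt.1 hcon⟩
    obtain ⟨r₀, hr₀, hr⟩ := incr_of_deriv (a := u i) (b := u (i + 1)) ⟨hi3, hi1⟩ hd hc hdc
    refine ⟨r₀, hr₀, fun r hr1 hr2 w o hw hwo ho => ?_⟩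
    obtain ⟨h5, h6, h7⟩ := hr r hr1 hr2
    have hB' := hB (i + 1) hin
    have h8 := Df_add h0 h2 (a := u i) (b := w) (c := o) (hA i) (by linarith) hwo (by linarith)
    have h9 := Df_add h0 h2 (a := u i) (b := x - r) (c := w) (hA i) h5 hw (by linarith)
    have h10 := Df_nonneg h0 (a := x - r) (b := w) ((hA i).trans h5) hw (by linarith)
    have h11 := Df_add h0 h2 (a := u i) (b := o) (c := x + r) (hA i) (by linarith) ho (by linarith)
    have h12 := Df_nonneg h0 (a := o) (b := x + r) ((hA i).trans (by linarith)) ho (by linarith)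
    linarith
  calc volume S ≤ volume N + volume (⋃ i ∈ Finset.range n, T i) :=
        (measure_mono hsub).trans (measure_union_le _ _)
    _ = volume (⋃ i ∈ Finset.range n, T i) := by rw [hN0, zero_add]
    _ ≤ ∑ i ∈ Finset.range n, volume (T i) := measure_biUnion_finset_le _ _
    _ ≤ ∑ i ∈ Finset.range n, ENNReal.ofReal (Df F (u i) (u (i + 1)) / c) := by
        refine Finset.sum_le_sum fun i hi => ?_
        rw [Finset.mem_range] at hi
        refine (volume_deriv_ge (hu (Nat.le_succ i)) (hmon i hi) hc).trans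
          (ENNReal.ofReal_le_ofReal ?_)
        have h13 := Df_nonneg h0 (a := u i) (b := u i) (hA i) le_rfl (hB i hi.le)
        exact div_le_div_of_nonneg_right (by linarith) hc.le
    _ = ENNReal.ofReal (∑ i ∈ Finset.range n, Df F (u i) (u (i + 1)) / c) := by
        rw [ENNReal.ofReal_sum_of_nonneg]
        intro i hi
        rw [Finset.mem_range] at hi
        exact div_nonneg (Df_nonneg h0 (hA i) (hu (Nat.le_succ i)) (hB _ hi)) hc.le
    _ ≤ e := by
        rw [← ENNReal.ofReal_coe_nnreal]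
        refine ENNReal.ofReal_le_ofReal ?_
        rw [← Finset.sum_div, div_le_iff₀ hc]
        exact hsum

end Defect

/-- **Superadditive interval functions.** -/
theorem sup_ae {F : ℝ → ℝ → ℝ} {A B lam : ℝ} (hlam : 0 < lam)
    (h0 : ∀ w o, A ≤ w → w ≤ o → o ≤ B → o ≤ w + lam → 0 ≤ F w o)
    (h2 : ∀ w v o, A ≤ w → w ≤ v → v ≤ o → o ≤ B → o ≤ w + lam → F w v + F v o ≤ F w o) :
    ∀ᵐ g : ℝ, g ∈ Ioo A B → ∀ e : ℝ, 0 < e → ∃ r₀ : ℝ, 0 < r₀ ∧ ∀ r : ℝ, 0 < r → r < r₀ →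
      ∀ w v o : ℝ, g - r ≤ w → w ≤ v → v ≤ o → o ≤ g + r → F w o - F w v - F v o ≤ e * r := by
  have key : ∀ᵐ g : ℝ, ∀ (p q : ℚ) (j : ℕ), A ≤ (p : ℝ) → (q : ℝ) ≤ B → (p : ℝ) < q →
      (q : ℝ) ≤ p + lam → g ∈ Ioo (p : ℝ) q → ∃ r₀ : ℝ, 0 < r₀ ∧ ∀ r : ℝ, 0 < r → r < r₀ →
        ∀ w o : ℝ, g - r ≤ w → w ≤ o → o ≤ g + r → Df F w o ≤ 3 * (1 / ((j : ℝ) + 1)) * r := by
    rw [ae_all_iff]; intro p
    rw [ae_all_iff]; intro q
    rw [ae_all_iff]; intro j
    by_cases h : A ≤ (p : ℝ) ∧ (q : ℝ) ≤ B ∧ (p : ℝ) < q ∧ (q : ℝ) ≤ p + lam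
    · obtain ⟨hp, hq, hpq, hl⟩ := h
      have := volume_bad (F := F) (A := p) (B := q)
        (fun w o hw hwo ho => h0 w o (hp.trans hw) hwo (ho.trans hq) (by linarith))
        (fun w v o hw hwv hvo ho => h2 w v o (hp.trans hw) hwv hvo (ho.trans hq) (by linarith))
        hpq (c := 1 / ((j : ℝ) + 1)) (by positivity)
      filter_upwards [this] with g hg _ _ _ _ hmem
      exact hg hmem
    · refine Eventually.of_forall fun g h1 h3 h4 h5 _ => absurd ⟨h1, h3, h4, h5⟩ h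
  filter_upwards [key] with g hg hgAB e he
  -- a rational interval around `g`
  obtain ⟨p, hp1, hp2⟩ := exists_rat_btwn (show max A (g - lam / 2) < g from
    max_lt hgAB.1 (by linarith))
  obtain ⟨q, hq1, hq2⟩ := exists_rat_btwn (show g < min B (g + lam / 2) from
    lt_min hgAB.2 (by linarith))
  have hpA : A ≤ (p : ℝ) := (le_max_left _ _).trans hp1.le
  have hpl : g - lam / 2 < (p : ℝ) := (le_max_right _ _).trans_lt hp1
  have hqB : (q : ℝ) ≤ B := hq2.le.trans (min_le_left _ _)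
  have hql : (q : ℝ) < g + lam / 2 := hq2.trans_le (min_le_right _ _)
  obtain ⟨j, hj⟩ := exists_nat_one_div_lt (show 0 < e / 3 by positivity)
  obtain ⟨r₀, hr₀, hr⟩ := hg p q j hpA hqB (hp2.trans hq1) (by linarith) ⟨hp2, hq1⟩
  refine ⟨min r₀ (min (g - p) (q - g)), lt_min hr₀ (lt_min (by linarith) (by linarith)),
    fun r hr1 hr2 w v o hw hwv hvo ho => ?_⟩
  have hr3 : r < r₀ := hr2.trans_le (min_le_left _ _)
  have hr4 : r < g - p := hr2.trans_le ((min_le_right _ _).trans (min_le_left _ _))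
  have hr5 : r < q - g := hr2.trans_le ((min_le_right _ _).trans (min_le_right _ _))
  have h3 := hr r hr1 hr3 w o hw (hwv.trans hvo) ho
  have h4 := defect_le (F := F) (A := p) (B := q)
    (fun w o hw hwo ho => h0 w o (hpA.trans hw) hwo (ho.trans hqB) (by linarith))
    (a := w) (b := v) (c := o) (by linarith) hwv hvo (by linarith)
  have h5 : 3 * (1 / ((j : ℝ) + 1)) * r ≤ e * r :=
    mul_le_mul_of_nonneg_right (by linarith) hr1.le
  linarith

end Pool.LOV23
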